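import Pool.Agent.Work.MP_dcf6a6_c1.Interface
import Pool.Agent.Work.MP_dcf6a6_c1.Basic

/-! Block CORE: the polynomial solution through `x` and `y`. -/

open Polynomial

namespace Pool.C1.helper41

noncomputable section

theorem stmt_CORE (hTAU : Stmt_TAU) (hSVAR : Stmt_SVAR) : Stmt_CORE := by
  intro J K B _ _ _ _ _ _ D w δ x y hP hw hδ hx hy hx0 hy0
  obtain ⟨N, τ, u, v, hN, hs, hτ⟩ := hTAU D (fun j => w (Sum.inl j)) δ
    (fun j => x (Sum.inl j)) (fun j => y (Sum.inl j)) hP (fun j => hw _) hδ hx hy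
    (fun j => hx0 _) (fun j => hy0 _)
  obtain ⟨z, hz, hzz⟩ := hSVAR (∏ j, τ j) (fun k => N * w (Sum.inr k))
    (fun k => x (Sum.inr k)) (fun k => y (Sum.inr k))
    (by
      rw [eval_prod]
      refine Finset.prod_ne_zero_iff.mpr fun j _ => ?_
      rw [← coeff_zero_eq_eval_zero, (hτ j).1]
      exact hx0 _)
    (fun k => le_trans hN (Nat.le_mul_of_pos_right N (hw _)))
    (fun k => hx0 _) (fun k => hy0 _)
  refine ⟨N, Sum.elim τ z, u, v, by omega, ?_, ?_, ?_⟩
  · rintro (j | k)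
    · exact ⟨hs.deg j, (hτ j).2, (hτ j).1⟩
    · exact ⟨(hz k).1, (hz k).2.1, (hz k).2.2.1⟩
  · intro b
    exact hs.rel b
  · rintro (j | k) (j' | k') hne
    · exact hs.cop j j' (fun h => hne (by rw [h]))
    · exact (IsCoprime.prod_left_iff.mp (hz k').2.2.2) j (Finset.mem_univ j)
    · exact ((IsCoprime.prod_left_iff.mp (hz k).2.2.2) j' (Finset.mem_univ j')).symm
    · exact hzz k k' (fun h => hne (by rw [h]))

end

end Pool.C1.helper41
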