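import Pool.Agent.Work.MP_dcf6a6_c1.Interface
import Pool.Agent.Work.MP_dcf6a6_c1.Basic

/-! Block TAU: solutions through two given points. -/

open Polynomial

namespace Pool.C1.helper41

noncomputable section

theorem hev_zero {J : Type} (c : J → ℕ) (τ : J → ℂ[X]) (j : J) (hc : 0 < c j) :
    hev c τ 0 j = 0 := by
  unfold hev Polynomial.homogenize
  rw [map_sum]
  refine Finset.sum_eq_zero fun kl hkl => ?_
  rw [Finset.HasAntidiagonal.mem_antidiagonal] at hkl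
  rw [MvPolynomial.eval_monomial]
  have h : ((fun₀ | 0 => kl.1 | 1 => kl.2 : Fin 2 →₀ ℕ).prod
      fun n e => (0 : Fin 2 → ℂ) n ^ e) = 0 := by
    rw [Finsupp.prod_fintype _ _ (fun i => pow_zero _), Fin.prod_univ_two]
    rcases Nat.eq_zero_or_pos kl.1 with h | h
    · have h2 : kl.2 ≠ 0 := by omega
      simp [h2]
    · have h1 : kl.1 ≠ 0 := by omega
      simp [h1]
  rw [h, mul_zero]

section

variable {J B : Type} [Fintype J] [Fintype B] [DecidableEq J] [DecidableEq B] (D : BData J B)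

theorem g_dvd (j : J) : D.g (D.bl j) ∣ D.l j :=
  Finset.gcd_dvd (Finset.mem_filter.mpr ⟨Finset.mem_univ j, rfl⟩)

theorem div_pos' (j : J) : 0 < D.l j / D.g (D.bl j) :=
  Nat.div_pos (Nat.le_of_dvd (D.l_pos j) (g_dvd D j))
    (Nat.pos_of_dvd_of_pos (g_dvd D j) (D.l_pos j))

theorem ne_of_prod (z x : J → ℂ) (hx : ∀ j, x j ≠ 0)
    (h : ∀ b, ∏ j with D.bl j = b, z j ^ (D.l j / D.g b) =
      ∏ j with D.bl j = b, x j ^ (D.l j / D.g b)) (j : J) : z j ≠ 0 := by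
  intro hz
  have h1 : ∏ i with D.bl i = D.bl j, z i ^ (D.l i / D.g (D.bl j)) = 0 :=
    Finset.prod_eq_zero (Finset.mem_filter.mpr ⟨Finset.mem_univ j, rfl⟩)
      (by rw [hz]; exact zero_pow (div_pos' D j).ne')
  rw [h] at h1
  exact (Finset.prod_ne_zero_iff.mpr fun i _ => pow_ne_zero _ (hx i)) h1

theorem delta_pos (w : J → ℕ) (δ : ℕ) (hw : ∀ j, 0 < w j)
    (h : ∀ b, ∑ j with D.bl j = b, D.l j * w j = δ) : 0 < δ := by
  obtain ⟨b₁, _, _⟩ := D.exists_pair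
  obtain ⟨j, hj⟩ := D.bl_surj b₁
  rw [← h b₁]
  exact lt_of_lt_of_le (Nat.mul_pos (D.l_pos j) (hw j))
    (Finset.single_le_sum (f := fun j => D.l j * w j) (fun i _ => Nat.zero_le _)
      (Finset.mem_filter.mpr ⟨Finset.mem_univ j, hj⟩))

end

theorem stmt_TAU (hACC : Stmt_ACC) (hSURB : Stmt_SURB) (hSUB : Stmt_SUB) (hCORR : Stmt_CORR) :
    Stmt_TAU := by
  intro J B _ _ _ _ D w δ x y hP hw hδ hx hy hx0 hy0
  have hδ0 := delta_pos D w δ hw hδ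
  obtain ⟨b₁, _, _⟩ := D.exists_pair
  obtain ⟨j₀, _⟩ := D.bl_surj b₁
  obtain ⟨N₀, τ₀, u₀, v₀, hN₀, hs⟩ := hACC D w δ hP hw hδ
  obtain ⟨p₀, hp₀⟩ := hSURB D _ _ τ₀ u₀ v₀ x hP hs (Nat.mul_pos hN₀ hδ0) hx hx0
  obtain ⟨p₁, hp₁⟩ := hSURB D _ _ τ₀ u₀ v₀ y hP hs (Nat.mul_pos hN₀ hδ0) hy hy0
  have h0 := ne_of_prod D _ x hx0 hp₀
  have h1 := ne_of_prod D _ y hy0 hp₁
  have hp₀0 : p₀ ≠ 0 := by
    intro h
    exact h0 j₀ (by rw [h]; exact hev_zero _ _ _ (Nat.mul_pos hN₀ (hw j₀)))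
  have hp₁0 : p₁ ≠ 0 := by
    intro h
    exact h1 j₀ (by rw [h]; exact hev_zero _ _ _ (Nat.mul_pos hN₀ (hw j₀)))
  obtain ⟨τ₁, u₁, v₁, hs₁, hτ₁⟩ := hSUB D _ _ τ₀ u₀ v₀ p₀ p₁ hs hp₀0 hp₁0 h0 h1
  obtain ⟨N, τ, u, v, hN, hs₂, hτ⟩ := hCORR D _ _ τ₁ u₁ v₁ x y hs₁
    (fun j => Nat.mul_pos (by norm_num) (Nat.mul_pos hN₀ (hw j))) hx0 hy0
    (fun j => by rw [(hτ₁ j).1]; exact h0 j)
    (fun b => by
      rw [← hp₀ b]
      exact Finset.prod_congr rfl fun j _ => by rw [(hτ₁ j).1])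
    (fun b => by
      rw [← hp₁ b]
      exact Finset.prod_congr rfl fun j _ => by rw [(hτ₁ j).2])
  refine ⟨N * (2 * N₀), τ, u, v, ?_, ?_, hτ⟩
  · have : 1 ≤ N * N₀ := Nat.mul_pos hN hN₀
    calc 2 ≤ 2 * (N * N₀) := by omega
      _ = N * (2 * N₀) := by ring
  · have e1 : (fun j => N * (2 * N₀) * w j) = fun j => N * (2 * (N₀ * w j)) := by
      funext j; ring
    have e2 : N * (2 * N₀) * δ = N * (2 * (N₀ * δ)) := by ring
    rw [e1, e2]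
    exact hs₂

end

end Pool.C1.helper41
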